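import Pool.Agent.Helper18.NF.StC

/-!
# NF-25: the indicator function of a Kummer pattern as a combination of root counts
-/

set_option autoImplicit false

open Finset Filter Topology
open Pool.Agent.Helper18.NF Pool.Agent.Helper18.BV
open scoped Classical

namespace Pool.Agent.Helper80.NF

namespace Indic

/-! ### Counting kernels -/

theorem card_ker (l : ℕ) [hl : Fact l.Prime] {G : Type} [AddCommGroup G] [Fintype G]
    (f : G →+ ZMod l) (hf : f ≠ 0) :
    l * (Finset.univ.filter (fun x : G => f x = 0)).card = Fintype.card G := by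
  classical
  have h1 : Nat.card f.ker * f.ker.index = Nat.card G := AddSubgroup.card_mul_index f.ker
  have h2 : f.ker.index = Nat.card f.range := AddSubgroup.index_ker f
  have h3 : f.range = ⊤ := by
    have hp : (Nat.card (ZMod l)).Prime := by
      rw [Nat.card_zmod]; exact hl.out
    have : Fact (Nat.card (ZMod l)).Prime := ⟨hp⟩
    rcases AddSubgroup.eq_bot_or_eq_top_of_prime_card f.range with h | h
    · exfalso
      apply hf
      ext x
      have : f x ∈ f.range := ⟨x, rfl⟩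
      rw [h] at this
      simpa using this
    · exact h
  have h4 : Nat.card f.range = l := by
    rw [h3]
    simp
  have h5 : Nat.card f.ker = (Finset.univ.filter (fun x : G => f x = 0)).card := by
    rw [← Nat.card_eq_finsetCard]
    apply Nat.card_congr
    apply Equiv.subtypeEquivRight
    intro x
    simp [AddMonoidHom.mem_ker]
  rw [h2, h4, h5] at h1
  rw [Nat.card_eq_fintype_card] at h1
  rw [← h1]; ring

/-- The coefficients of the combination, for one prime. -/
noncomputable def coef (l : ℕ) {V : Type} [Fintype V] [AddCommGroup V] (φ : V →+ ZMod l) (b : V) : ℝ :=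
  ((if φ b = 0 then (l : ℝ) else 0) - 1) / (((l : ℝ) - 1) * Fintype.card V)

theorem sum_coef (l : ℕ) [hl : Fact l.Prime] {V : Type} [AddCommGroup V] [Fintype V]
    (φ ψ : V →+ ZMod l) (hφ : φ ≠ 0) :
    ∑ b : V, coef l φ b * (if ψ b = 0 then (l : ℝ) else 0) =
      if (∀ b, ψ b = 0 ↔ φ b = 0) then 1 else 0 := by
  classical
  have hl1 : (1 : ℝ) < l := by exact_mod_cast hl.out.one_lt
  have hV : (0 : ℝ) < Fintype.card V := by exact_mod_cast Fintype.card_pos
  have hne : (((l : ℝ) - 1) * Fintype.card V) ≠ 0 := by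
    apply mul_ne_zero <;> linarith
  have e1 : ∑ b : V, coef l φ b * (if ψ b = 0 then (l : ℝ) else 0) =
      (l : ℝ) / (((l : ℝ) - 1) * Fintype.card V) *
        ((l : ℝ) * ((univ.filter (fun b : V => φ b = 0 ∧ ψ b = 0)).card : ℝ) -
          ((univ.filter (fun b : V => ψ b = 0)).card : ℝ)) := by
    have a1 : ((univ.filter (fun b : V => φ b = 0 ∧ ψ b = 0)).card : ℝ) =
        ∑ b : V, if (φ b = 0 ∧ ψ b = 0) then (1 : ℝ) else 0 := by
      rw [Finset.card_filter]; push_cast; rfl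
    have a2 : ((univ.filter (fun b : V => ψ b = 0)).card : ℝ) =
        ∑ b : V, if (ψ b = 0) then (1 : ℝ) else 0 := by
      rw [Finset.card_filter]; push_cast; rfl
    rw [a1, a2, Finset.mul_sum, ← Finset.sum_sub_distrib, Finset.mul_sum]
    apply Finset.sum_congr rfl
    intro b _
    unfold coef
    by_cases h1 : φ b = 0 <;> by_cases h2 : ψ b = 0 <;> simp [h1, h2] <;> ring
  rw [e1]
  have kφ : (l : ℝ) * ((univ.filter (fun b : V => φ b = 0)).card : ℝ) = Fintype.card V := by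
    exact_mod_cast card_ker l φ hφ
  by_cases hψ : ψ = 0
  · have e2 : (univ.filter (fun b : V => φ b = 0 ∧ ψ b = 0)) = univ.filter (fun b : V => φ b = 0) := by
      ext b; simp [hψ]
    have e3 : (univ.filter (fun b : V => ψ b = 0)) = univ := by
      ext b; simp [hψ]
    have e4 : ¬ (∀ b, ψ b = 0 ↔ φ b = 0) := by
      intro h
      apply hφ
      ext b
      simpa [hψ] using h b
    rw [e2, e3, kφ, if_neg e4, Finset.card_univ]
    ring
  · have kψ : (l : ℝ) * ((univ.filter (fun b : V => ψ b = 0)).card : ℝ) = Fintype.card V := by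
      exact_mod_cast card_ker l ψ hψ
    by_cases hk : (∀ b, ψ b = 0 ↔ φ b = 0)
    · have e2 : (univ.filter (fun b : V => φ b = 0 ∧ ψ b = 0)) = univ.filter (fun b : V => φ b = 0) := by
        ext b; simp [hk]
      have e3 : (univ.filter (fun b : V => ψ b = 0)) = univ.filter (fun b : V => φ b = 0) := by
        ext b; simp [hk]
      rw [e2, e3, if_pos hk]
      have : ((univ.filter (fun b : V => φ b = 0)).card : ℝ) = Fintype.card V / l := by
        field_simp; linarith
      rw [this]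
      have : (l : ℝ) ≠ 0 := by linarith
      have h3 : (l : ℝ) - 1 ≠ 0 := by linarith
      field_simp
    · rw [if_neg hk]
      -- the restriction of `ψ` to the kernel of `φ` does not vanish
      have hne2 : ψ.comp φ.ker.subtype ≠ 0 := by
        intro h0
        apply hk
        have hsub : ∀ b, φ b = 0 → ψ b = 0 := by
          intro b hb
          have := DFunLike.congr_fun h0 (⟨b, hb⟩ : φ.ker)
          simpa using this
        have hss : (univ.filter (fun b : V => φ b = 0)) ⊆ univ.filter (fun b : V => ψ b = 0) := by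
          intro b hb
          simp only [mem_filter, mem_univ, true_and] at hb ⊢
          exact hsub b hb
        have hcard : (univ.filter (fun b : V => ψ b = 0)).card ≤
            (univ.filter (fun b : V => φ b = 0)).card := by
          have : (l : ℝ) * ((univ.filter (fun b : V => ψ b = 0)).card : ℝ) =
            (l : ℝ) * ((univ.filter (fun b : V => φ b = 0)).card : ℝ) := by rw [kφ, kψ]
          have h4 := mul_left_cancel₀ (by linarith : (l : ℝ) ≠ 0) this
          exact le_of_eq (by exact_mod_cast h4)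
        have heq := Finset.eq_of_subset_of_card_le hss hcard
        intro b
        constructor
        · intro hb
          have : b ∈ univ.filter (fun b : V => φ b = 0) := by
            rw [heq]; simp [hb]
          simpa using this
        · exact hsub b
      have h5 := card_ker l (ψ.comp φ.ker.subtype) hne2
      have h6 : (univ.filter (fun x : φ.ker => (ψ.comp φ.ker.subtype) x = 0)).card =
          (univ.filter (fun b : V => φ b = 0 ∧ ψ b = 0)).card := by
        apply Finset.card_bij (fun (x : φ.ker) _ => (x : V))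
        · intro x hx
          simp only [mem_filter, mem_univ, true_and] at hx ⊢
          exact ⟨x.2, hx⟩
        · intro x _ y _ h
          exact Subtype.ext h
        · intro b hb
          simp only [mem_filter, mem_univ, true_and] at hb
          refine ⟨⟨b, hb.1⟩, ?_, rfl⟩
          simp only [mem_filter, mem_univ, true_and]
          exact hb.2
      have h7 : Fintype.card φ.ker = (univ.filter (fun b : V => φ b = 0)).card := by
        rw [← Nat.card_eq_fintype_card, ← Nat.card_eq_finsetCard]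
        apply Nat.card_congr
        apply Equiv.subtypeEquivRight
        intro x
        simp [AddMonoidHom.mem_ker]
      rw [h6, h7] at h5
      have h8 : (l : ℝ) * ((univ.filter (fun b : V => φ b = 0 ∧ ψ b = 0)).card : ℝ) =
          ((univ.filter (fun b : V => φ b = 0)).card : ℝ) := by exact_mod_cast h5
      have h9 : ((univ.filter (fun b : V => ψ b = 0)).card : ℝ) =
          ((univ.filter (fun b : V => φ b = 0)).card : ℝ) := by
        have : (l : ℝ) * ((univ.filter (fun b : V => ψ b = 0)).card : ℝ) =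
            (l : ℝ) * ((univ.filter (fun b : V => φ b = 0)).card : ℝ) := by rw [kφ, kψ]
        exact mul_left_cancel₀ (by linarith : (l : ℝ) ≠ 0) this
      rw [h8, h9]
      ring

theorem sum_coef_pos (l : ℕ) [hl : Fact l.Prime] {V : Type} [AddCommGroup V] [Fintype V]
    (φ : V →+ ZMod l) (hφ : φ ≠ 0) :
    0 < ∑ b : V, coef l φ b * (if b = 0 then (l : ℝ) else 1) := by
  classical
  have hl1 : (1 : ℝ) < l := by exact_mod_cast hl.out.one_lt
  have hV : (0 : ℝ) < Fintype.card V := by exact_mod_cast Fintype.card_pos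
  have kφ : (l : ℝ) * ((univ.filter (fun b : V => φ b = 0)).card : ℝ) = Fintype.card V := by
    exact_mod_cast card_ker l φ hφ
  have e1 : ∑ b : V, coef l φ b * (if b = 0 then (l : ℝ) else 1) =
      ∑ b : V, coef l φ b + coef l φ 0 * ((l : ℝ) - 1) := by
    have : ∀ b : V, coef l φ b * (if b = 0 then (l : ℝ) else 1) =
        coef l φ b + (if b = 0 then coef l φ 0 * ((l : ℝ) - 1) else 0) := by
      intro b
      by_cases h : b = 0
      · subst h; simp; ring
      · simp [h]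
    rw [Finset.sum_congr rfl (fun b _ => this b), Finset.sum_add_distrib]
    simp
  have e2 : ∑ b : V, coef l φ b = 0 := by
    unfold coef
    rw [← Finset.sum_div, Finset.sum_sub_distrib]
    have : ∑ b : V, (if φ b = 0 then (l : ℝ) else 0) =
        (l : ℝ) * ((univ.filter (fun b : V => φ b = 0)).card : ℝ) := by
      rw [Finset.card_filter]; push_cast
      rw [Finset.mul_sum]
      apply Finset.sum_congr rfl
      intro b _
      split_ifs <;> simp
    rw [this, kφ]
    simp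
  rw [e1, e2]
  have e3 : coef l φ 0 = 1 / Fintype.card V := by
    unfold coef
    simp only [map_zero, if_true]
    have : (l : ℝ) - 1 ≠ 0 := by linarith
    field_simp
  rw [e3, zero_add]
  apply mul_pos
  · positivity
  · linarith

/-! ### Roots modulo `p` -/

theorem exists_root_iff (p : ℕ) [hp : Fact p.Prime] (g : (ZMod p)ˣ)
    (hg : ∀ x : (ZMod p)ˣ, x ∈ Subgroup.zpowers g) (d : ℕ) (hd : d ∣ p - 1) (hd0 : 0 < d) (s : ℕ) :
    (∃ x : ZMod p, x ^ d = ((g ^ s : (ZMod p)ˣ) : ZMod p)) ↔ d ∣ s := by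
  have hord : orderOf g = p - 1 := by
    rw [orderOf_eq_card_of_forall_mem_zpowers hg, Nat.card_eq_fintype_card, ZMod.card_units]
  constructor
  · rintro ⟨x, hx⟩
    have hx0 : x ≠ 0 := by
      rintro rfl
      rw [zero_pow hd0.ne'] at hx
      exact (g ^ s).ne_zero hx.symm
    obtain ⟨t, ht⟩ : ∃ t : ℕ, g ^ t = Units.mk0 x hx0 := by
      have := hg (Units.mk0 x hx0)
      rw [← mem_powers_iff_mem_zpowers] at this
      exact this
    have h1 : g ^ (t * d) = g ^ s := by
      apply Units.ext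
      rw [pow_mul, ht]
      simpa using hx
    have h2 := (pow_eq_pow_iff_modEq.mp h1)
    rw [hord] at h2
    have h3 : t * d ≡ s [MOD d] := h2.of_dvd hd
    have h4 : 0 ≡ s [MOD d] := (Nat.modEq_zero_iff_dvd.mpr (dvd_mul_left d t)).symm.trans h3
    exact (Nat.modEq_zero_iff_dvd.mp h4.symm)
  · rintro ⟨t, rfl⟩
    exact ⟨((g ^ t : (ZMod p)ˣ) : ZMod p), by
      push_cast
      rw [← pow_mul]; ring_nf⟩

theorem rc_eq (p : ℕ) [hp : Fact p.Prime] (g : (ZMod p)ˣ)
    (hg : ∀ x : (ZMod p)ˣ, x ∈ Subgroup.zpowers g) (d : ℕ) (hd : d ∣ p - 1) (hd0 : 0 < d) (s B : ℕ)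
    (hB : (B : ZMod p) = ((g ^ s : (ZMod p)ˣ) : ZMod p)) :
    rc d B p = if d ∣ s then d else 0 := by
  classical
  have hord : orderOf g = p - 1 := by
    rw [orderOf_eq_card_of_forall_mem_zpowers hg, Nat.card_eq_fintype_card, ZMod.card_units]
  obtain ⟨m, hm⟩ := hd
  have hp1 : 0 < p - 1 := by have := hp.out.one_lt; omega
  have hm0 : m ≠ 0 := by rintro rfl; simp at hm; omega
  have hprim : IsPrimitiveRoot ((g : ZMod p) ^ m) d := by
    have h1 : IsPrimitiveRoot (g : ZMod p) (p - 1) := by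
      have := IsPrimitiveRoot.orderOf g
      rw [hord] at this
      exact IsPrimitiveRoot.coe_units_iff.mpr this
    exact h1.pow hp1 (by rw [hm]; ring)
  have h2 := hprim.card_nthRoots (((g ^ s : (ZMod p)ˣ) : ZMod p))
  have hnd := hprim.nthRoots_nodup (a := ((g ^ s : (ZMod p)ˣ) : ZMod p)) (g ^ s).ne_zero
  have h3 : rc d B p = Multiset.card (Polynomial.nthRoots d (((g ^ s : (ZMod p)ˣ) : ZMod p))) := by
    unfold rc
    rw [← Multiset.toFinset_card_of_nodup hnd]
    rw [← Nat.card_eq_finsetCard]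
    apply Nat.card_congr
    apply Equiv.subtypeEquivRight
    intro x
    rw [Multiset.mem_toFinset, Polynomial.mem_nthRoots hd0, hB]
  rw [h3, h2]
  have h4 := exists_root_iff p g hg d (by exact ⟨m, hm⟩) hd0 s
  by_cases h : d ∣ s
  · rw [if_pos h, if_pos (h4.mpr h)]
  · rw [if_neg h, if_neg (fun h' => h (h4.mp h'))]

/-! ### Families -/

/-- The integer attached to a vector of exponents. -/
noncomputable def ex (R : Finset ℕ) (l : ℕ) (b : {r // r ∈ R} → ZMod l) : ℕ :=
  ∏ r : {r // r ∈ R}, (r : ℕ) ^ (b r).val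

theorem ex_pos (R : Finset ℕ) (hR : ∀ r ∈ R, r.Prime) (l : ℕ) (b : {r // r ∈ R} → ZMod l) :
    0 < ex R l b := by
  unfold ex
  apply Finset.prod_pos
  intro r _
  exact pow_pos (hR r r.2).pos _

theorem factorization_ex (R : Finset ℕ) (hR : ∀ r ∈ R, r.Prime) (l : ℕ)
    (b : {r // r ∈ R} → ZMod l) (r : {r // r ∈ R}) :
    (ex R l b).factorization (r : ℕ) = (b r).val := by
  unfold ex
  rw [Nat.factorization_prod (fun r _ => pow_ne_zero _ (hR r.1 r.2).ne_zero)]
  rw [Finsupp.finsetSum_apply]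
  rw [Finset.sum_eq_single r]
  · rw [(hR r.1 r.2).factorization_pow]; simp
  · intro r' _ hne
    rw [(hR r'.1 r'.2).factorization_pow]
    rw [Finsupp.single_apply, if_neg]
    intro h
    exact hne (Subtype.ext h)
  · intro h; exact absurd (mem_univ r) h

theorem prime_dvd_ex (R : Finset ℕ) (hR : ∀ r ∈ R, r.Prime) (l : ℕ)
    (b : {r // r ∈ R} → ZMod l) (q : ℕ) (hq : q.Prime) (h : q ∣ ex R l b) : q ∈ R := by
  unfold ex at h
  rw [Prime.dvd_finsetProd_iff hq.prime] at h
  obtain ⟨r, _, h⟩ := h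
  have := hq.dvd_of_dvd_pow h
  rw [(Nat.prime_dvd_prime_iff_eq hq (hR r.1 r.2)).mp this]
  exact r.2

/-- The linear functional attached to exponents `z`. -/
noncomputable def lin (R : Finset ℕ) (l : ℕ) (z : ℕ → ℤ) : ({r // r ∈ R} → ZMod l) →+ ZMod l where
  toFun b := ∑ r : {r // r ∈ R}, b r * (z r : ZMod l)
  map_zero' := by simp
  map_add' b b' := by
    rw [← Finset.sum_add_distrib]
    apply Finset.sum_congr rfl
    intro r _
    rw [Pi.add_apply]; ring

theorem lin_apply (R : Finset ℕ) (l : ℕ) (z : ℕ → ℤ) (b : {r // r ∈ R} → ZMod l) :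
    lin R l z b = ∑ r : {r // r ∈ R}, b r * (z r : ZMod l) := rfl

theorem lin_ne_zero (R : Finset ℕ) (l : ℕ) (z : ℕ → ℤ) (h : ∃ r ∈ R, ¬ (l : ℤ) ∣ z r) :
    lin R l z ≠ 0 := by
  classical
  obtain ⟨r, hr, h⟩ := h
  intro h0
  apply h
  rw [← ZMod.intCast_zmod_eq_zero_iff_dvd]
  have h1 := DFunLike.congr_fun h0 (Pi.single (⟨r, hr⟩ : {r // r ∈ R}) (1 : ZMod l))
  rw [lin_apply, Finset.sum_eq_single ⟨r, hr⟩] at h1
  · simpa using h1
  · intro r' _ hne
    rw [Pi.single_eq_of_ne hne]; simp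
  · intro h; exact absurd (mem_univ _) h

theorem lin_zero_iff (R : Finset ℕ) (l : ℕ) [NeZero l] (z : ℕ → ℤ) (b : {r // r ∈ R} → ZMod l) :
    lin R l z b = 0 ↔ (l : ℤ) ∣ ∑ r : {r // r ∈ R}, ((b r).val : ℤ) * z r := by
  rw [← ZMod.intCast_zmod_eq_zero_iff_dvd, lin_apply]
  push_cast
  simp

/-! ### The data of a family -/

section

variable (Ls R : Finset ℕ)

/-- The families of vectors of exponents. -/
abbrev Fam : Type := (l : {l // l ∈ Ls}) → ({r // r ∈ R} → ZMod (l : ℕ))

variable {Ls R}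

/-- The exponent `D` of a family. -/
noncomputable def Dn (β : Fam Ls R) : ℕ := ∏ l : {l // l ∈ Ls}, if β l = 0 then 1 else (l : ℕ)

/-- The number `B` of a family. -/
noncomputable def Bn (β : Fam Ls R) : ℕ :=
  ∏ l : {l // l ∈ Ls}, if β l = 0 then 1 else (ex R l (β l)) ^ (Dn β / l)

theorem Dn_dvd (β : Fam Ls R) : Dn β ∣ ∏ l ∈ Ls, l := by
  unfold Dn
  rw [← Finset.prod_coe_sort Ls (fun l => l)]
  apply Finset.prod_dvd_prod_of_dvd
  intro l _
  split_ifs
  · exact one_dvd _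
  · exact dvd_rfl

theorem Dn_odd (hLs : ∀ l ∈ Ls, l.Prime ∧ l ≠ 2) (β : Fam Ls R) : Odd (Dn β) := by
  rw [← Nat.not_even_iff_odd, even_iff_two_dvd]
  intro h
  have h1 := h.trans (Dn_dvd β)
  rw [Prime.dvd_finsetProd_iff Nat.prime_two.prime] at h1
  obtain ⟨l, hl, h2⟩ := h1
  have := (Nat.prime_dvd_prime_iff_eq Nat.prime_two (hLs l hl).1).mp h2
  exact (hLs l hl).2 this.symm

theorem Dn_pos (hLs : ∀ l ∈ Ls, l.Prime ∧ l ≠ 2) (β : Fam Ls R) : 0 < Dn β :=
  (Dn_odd hLs β).pos

theorem Bn_pos (hR : ∀ r ∈ R, r.Prime) (β : Fam Ls R) : 1 ≤ Bn β := by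
  rw [Nat.one_le_iff_ne_zero, ← Nat.pos_iff_ne_zero]
  unfold Bn
  apply Finset.prod_pos
  intro l _
  split_ifs
  · exact one_pos
  · exact pow_pos (ex_pos R hR l _) _

theorem dvd_Dn (β : Fam Ls R) (l : {l // l ∈ Ls}) (h : β l ≠ 0) : (l : ℕ) ∣ Dn β := by
  unfold Dn
  have := Finset.dvd_prod_of_mem (fun l : {l // l ∈ Ls} => if β l = 0 then 1 else (l : ℕ))
    (mem_univ l)
  simpa [h] using this

theorem Dn_div (hLs : ∀ l ∈ Ls, l.Prime ∧ l ≠ 2) (β : Fam Ls R) (l : {l // l ∈ Ls})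
    (h : β l ≠ 0) :
    Dn β / l = ∏ l' ∈ univ.erase l, if β l' = 0 then 1 else (l' : ℕ) := by
  have h1 : Dn β = (l : ℕ) * ∏ l' ∈ univ.erase l, if β l' = 0 then 1 else (l' : ℕ) := by
    unfold Dn
    rw [← Finset.mul_prod_erase univ _ (mem_univ l), if_neg h]
  rw [h1]
  exact Nat.mul_div_cancel_left _ (hLs l.1 l.2).1.pos

/-- `l` does not divide `D / l`. -/
theorem not_dvd_Dn_div (hLs : ∀ l ∈ Ls, l.Prime ∧ l ≠ 2) (β : Fam Ls R) (l : {l // l ∈ Ls})
    (h : β l ≠ 0) : ¬ (l : ℕ) ∣ Dn β / l := by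
  rw [Dn_div hLs β l h]
  intro h1
  rw [Prime.dvd_finsetProd_iff (hLs l.1 l.2).1.prime] at h1
  obtain ⟨l', hl', h2⟩ := h1
  rw [Finset.mem_erase] at hl'
  split_ifs at h2 with h3
  · exact (hLs l.1 l.2).1.one_lt.ne' (Nat.dvd_one.mp h2)
  · apply hl'.1
    exact Subtype.ext ((Nat.prime_dvd_prime_iff_eq (hLs l.1 l.2).1 (hLs l'.1 l'.2).1).mp h2).symm

/-- `l` divides `D / l'` for `l' ≠ l`. -/
theorem dvd_Dn_div (hLs : ∀ l ∈ Ls, l.Prime ∧ l ≠ 2) (β : Fam Ls R) (l l' : {l // l ∈ Ls})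
    (h : β l ≠ 0) (h' : β l' ≠ 0) (hne : l' ≠ l) : (l : ℕ) ∣ Dn β / l' := by
  rw [Dn_div hLs β l' h']
  have := Finset.dvd_prod_of_mem (fun l : {l // l ∈ Ls} => if β l = 0 then 1 else (l : ℕ))
    (Finset.mem_erase.mpr ⟨hne.symm, mem_univ l⟩)
  simpa [h] using this

theorem Dn_dvd_iff (hLs : ∀ l ∈ Ls, l.Prime ∧ l ≠ 2) (β : Fam Ls R) (s : ℕ) :
    Dn β ∣ s ↔ ∀ l : {l // l ∈ Ls}, β l ≠ 0 → (l : ℕ) ∣ s := by
  constructor
  · intro h l hl
    exact (dvd_Dn β l hl).trans h
  · intro h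
    unfold Dn
    apply Finset.prod_dvd_of_isRelPrime
    · intro l _ l' _ hne
      have : Nat.Coprime (if β l = 0 then 1 else (l : ℕ)) (if β l' = 0 then 1 else (l' : ℕ)) := by
        split_ifs
        · exact Nat.coprime_one_left _
        · exact Nat.coprime_one_left _
        · exact Nat.coprime_one_right _
        · exact (Nat.coprime_primes (hLs l.1 l.2).1 (hLs l'.1 l'.2).1).mpr
            (fun h => hne (Subtype.ext h))
      exact Nat.coprime_iff_isRelPrime.mp this
    · intro l _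
      split_ifs with h1
      · exact one_dvd _
      · exact h l h1

theorem dvd_sum_iff (hLs : ∀ l ∈ Ls, l.Prime ∧ l ≠ 2) (β : Fam Ls R) (S : {l // l ∈ Ls} → ℕ)
    (l : {l // l ∈ Ls}) (h : β l ≠ 0) :
    (l : ℕ) ∣ (∑ l' : {l // l ∈ Ls}, if β l' = 0 then 0 else (Dn β / l') * S l') ↔
      (l : ℕ) ∣ S l := by
  rw [← Finset.add_sum_erase univ _ (mem_univ l), if_neg h]
  have h1 : (l : ℕ) ∣ ∑ l' ∈ univ.erase l, if β l' = 0 then 0 else (Dn β / l') * S l' := by
    apply Finset.dvd_sum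
    intro l' hl'
    rw [Finset.mem_erase] at hl'
    split_ifs with h3
    · exact dvd_zero _
    · exact Dvd.dvd.mul_right (dvd_Dn_div hLs β l l' h h3 hl'.1) _
  rw [Nat.dvd_add_left h1]
  constructor
  · intro h2
    rcases (hLs l.1 l.2).1.dvd_mul.mp h2 with h3 | h3
    · exact absurd h3 (not_dvd_Dn_div hLs β l h)
    · exact h3
  · intro h2
    exact Dvd.dvd.mul_left h2 _

theorem NP_Bn (hLs : ∀ l ∈ Ls, l.Prime ∧ l ≠ 2) (hR : ∀ r ∈ R, r.Prime) (β : Fam Ls R) :
    NP (Dn β) (Bn β) := by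
  intro q hq hqD c hc
  have h1 : ∃ l : {l // l ∈ Ls}, β l ≠ 0 ∧ q = l := by
    unfold Dn at hqD
    rw [Prime.dvd_finsetProd_iff hq.prime] at hqD
    obtain ⟨l, _, h2⟩ := hqD
    split_ifs at h2 with h3
    · exact absurd (Nat.dvd_one.mp h2) hq.one_lt.ne'
    · exact ⟨l, h3, (Nat.prime_dvd_prime_iff_eq hq (hLs l.1 l.2).1).mp h2⟩
  obtain ⟨l, hl, rfl⟩ := h1
  obtain ⟨r, hr⟩ : ∃ r, β l r ≠ 0 := by
    by_contra h
    push Not at h
    exact hl (funext h)
  have h2 : (Bn β).factorization (r : ℕ) =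
      ∑ l' : {l // l ∈ Ls}, if β l' = 0 then 0 else (Dn β / l') * (β l' r).val := by
    unfold Bn
    rw [Nat.factorization_prod, Finsupp.finsetSum_apply]
    · apply Finset.sum_congr rfl
      intro l' _
      split_ifs
      · simp
      · rw [Nat.factorization_pow]
        simp only [Finsupp.coe_smul, Pi.smul_apply, smul_eq_mul]
        rw [factorization_ex R hR l' (β l') r]
    · intro l' _
      split_ifs
      · exact one_ne_zero
      · exact pow_ne_zero _ (ex_pos R hR l' _).ne'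
  have h3 : (l : ℕ) ∣ (Bn β).factorization (r : ℕ) := by
    rw [← hc, Nat.factorization_pow]
    simp
  rw [h2] at h3
  have h4 := (dvd_sum_iff hLs β (fun l' => (β l' r).val) l hl).mp h3
  have : NeZero (l : ℕ) := ⟨(hLs l.1 l.2).1.ne_zero⟩
  have h5 : (β l r).val < l := ZMod.val_lt _
  have h6 : (β l r).val = 0 := Nat.eq_zero_of_dvd_of_lt h4 h5
  exact hr ((ZMod.val_eq_zero _).mp h6)

/-! ### Evaluation at a prime -/

theorem cast_ex (p : ℕ) [hp : Fact p.Prime] (g : (ZMod p)ˣ) (ind : ℕ → ℕ)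
    (hind : ∀ r ∈ R, ((g ^ ind r : (ZMod p)ˣ) : ZMod p) = (r : ZMod p)) (l : ℕ)
    (b : {r // r ∈ R} → ZMod l) :
    (ex R l b : ZMod p) =
      ((g ^ (∑ r : {r // r ∈ R}, (b r).val * ind r) : (ZMod p)ˣ) : ZMod p) := by
  unfold ex
  rw [← Finset.prod_pow_eq_pow_sum]
  push_cast
  apply Finset.prod_congr rfl
  intro r _
  rw [← hind r.1 r.2]
  push_cast
  rw [← pow_mul, mul_comm]

theorem cast_Bn (p : ℕ) [hp : Fact p.Prime] (g : (ZMod p)ˣ) (ind : ℕ → ℕ)
    (hind : ∀ r ∈ R, ((g ^ ind r : (ZMod p)ˣ) : ZMod p) = (r : ZMod p)) (β : Fam Ls R) :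
    (Bn β : ZMod p) = ((g ^ (∑ l : {l // l ∈ Ls}, if β l = 0 then 0 else
      (Dn β / l) * ∑ r : {r // r ∈ R}, (β l r).val * ind r) : (ZMod p)ˣ) : ZMod p) := by
  unfold Bn
  rw [← Finset.prod_pow_eq_pow_sum]
  push_cast
  apply Finset.prod_congr rfl
  intro l _
  split_ifs
  · simp
  · rw [cast_ex p g ind hind]
    push_cast
    rw [← pow_mul, mul_comm]

theorem rc_Bn (hLs : ∀ l ∈ Ls, l.Prime ∧ l ≠ 2) (p : ℕ) [hp : Fact p.Prime] (g : (ZMod p)ˣ)
    (hg : ∀ x : (ZMod p)ˣ, x ∈ Subgroup.zpowers g) (hpl : ∀ l ∈ Ls, p % l = 1) (ind : ℕ → ℕ)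
    (hind : ∀ r ∈ R, ((g ^ ind r : (ZMod p)ˣ) : ZMod p) = (r : ZMod p)) (β : Fam Ls R) :
    (rc (Dn β) (Bn β) p : ℝ) = ∏ l : {l // l ∈ Ls}, if β l = 0 then (1 : ℝ) else
      if (l : ℕ) ∣ ∑ r : {r // r ∈ R}, (β l r).val * ind r then (l : ℝ) else 0 := by
  have hD : Dn β ∣ p - 1 := by
    rw [Dn_dvd_iff hLs]
    intro l _
    have h1 := hpl l.1 l.2
    exact (Nat.modEq_iff_dvd' hp.out.one_lt.le).mp (by
      rw [Nat.ModEq, h1]
      exact Nat.mod_eq_of_lt (hLs l.1 l.2).1.one_lt)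
  rw [rc_eq p g hg (Dn β) hD (Dn_pos hLs β) _ (Bn β) (cast_Bn p g ind hind β)]
  by_cases h : ∀ l : {l // l ∈ Ls}, β l ≠ 0 →
      (l : ℕ) ∣ ∑ r : {r // r ∈ R}, (β l r).val * ind r
  · rw [if_pos]
    · unfold Dn
      push_cast
      apply Finset.prod_congr rfl
      intro l _
      by_cases h1 : β l = 0
      · simp [h1]
      · rw [if_neg h1, if_neg h1, if_pos (h l h1)]
    · rw [Dn_dvd_iff hLs]
      intro l hl
      exact (dvd_sum_iff hLs β (fun l => ∑ r : {r // r ∈ R}, (β l r).val * ind r) l hl).mpr (h l hl)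
  · rw [if_neg]
    · push Not at h
      obtain ⟨l, hl, h1⟩ := h
      symm
      rw [Nat.cast_zero]
      apply Finset.prod_eq_zero (mem_univ l)
      rw [if_neg hl, if_neg h1]
    · intro h1
      apply h
      intro l hl
      rw [Dn_dvd_iff hLs] at h1
      exact (dvd_sum_iff hLs β (fun l => ∑ r : {r // r ∈ R}, (β l r).val * ind r) l hl).mp (h1 l hl)

/-- The pattern at `p` in terms of kernels. -/
theorem pat_iff (hLs : ∀ l ∈ Ls, l.Prime ∧ l ≠ 2) (hR : ∀ r ∈ R, r.Prime) (y : ℕ → ℕ → ℤ)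
    (p : ℕ) [hp : Fact p.Prime] (g : (ZMod p)ˣ)
    (hg : ∀ x : (ZMod p)ˣ, x ∈ Subgroup.zpowers g) (hpl : ∀ l ∈ Ls, p % l = 1) (ind : ℕ → ℕ)
    (hind : ∀ r ∈ R, ((g ^ ind r : (ZMod p)ˣ) : ZMod p) = (r : ZMod p)) :
    Pat Ls R y p ↔ ∀ l : {l // l ∈ Ls}, ∀ b : {r // r ∈ R} → ZMod (l : ℕ),
      lin R l (fun r => (ind r : ℤ)) b = 0 ↔ lin R l (y l) b = 0 := by
  have hdvd : ∀ l ∈ Ls, l ∣ p - 1 := by
    intro l hl
    have h1 := hpl l hl
    exact (Nat.modEq_iff_dvd' hp.out.one_lt.le).mp (by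
      rw [Nat.ModEq, h1]
      exact Nat.mod_eq_of_lt (hLs l hl).1.one_lt)
  constructor
  · intro h l b
    have : NeZero (l : ℕ) := ⟨(hLs l.1 l.2).1.ne_zero⟩
    have h1 := h l.1 l.2 (ex R l b) (ex_pos R hR l b)
      (fun r hr hd => prime_dvd_ex R hR l b r hr hd)
    rw [cast_ex p g ind hind, exists_root_iff p g hg l.1 (hdvd l.1 l.2) (hLs l.1 l.2).1.pos] at h1
    rw [lin_zero_iff, lin_zero_iff]
    rw [← Finset.sum_coe_sort R (fun r => ((ex R l b).factorization r : ℤ) * y l r)] at h1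
    simp only [factorization_ex R hR] at h1
    rw [← h1, ← Int.natCast_dvd_natCast]
    push_cast
    rfl
  · intro h l hl a ha hpr
    have : NeZero (l : ℕ) := ⟨(hLs l hl).1.ne_zero⟩
    have h1 := h ⟨l, hl⟩ (fun r => (a.factorization (r : ℕ) : ZMod l))
    have h2 : (a : ZMod p) = ((g ^ (∑ r : {r // r ∈ R}, a.factorization r * ind r) : (ZMod p)ˣ) :
        ZMod p) := by
      have h3 : a = ∏ r : {r // r ∈ R}, (r : ℕ) ^ a.factorization r := by
        rw [Finset.prod_coe_sort R (fun r => r ^ a.factorization r)]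
        conv_lhs => rw [← Nat.prod_factorization_pow_eq_self (by omega : a ≠ 0)]
        rw [Finsupp.prod]
        apply Finset.prod_subset
        · intro r hr
          rw [Nat.support_factorization, Nat.mem_primeFactors] at hr
          exact hpr r hr.1 hr.2.1
        · intro r _ hr
          rw [Finsupp.mem_support_iff, not_not] at hr
          rw [hr, pow_zero]
      conv_lhs => rw [h3]
      rw [← Finset.prod_pow_eq_pow_sum]
      push_cast
      apply Finset.prod_congr rfl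
      intro r _
      rw [← hind r.1 r.2]
      push_cast
      rw [← pow_mul, mul_comm]
    rw [h2, exists_root_iff p g hg l (hdvd l hl) (hLs l hl).1.pos]
    have e1 : lin R l (fun r => (ind r : ℤ)) (fun r => (a.factorization (r : ℕ) : ZMod l)) = 0 ↔
        l ∣ ∑ r : {r // r ∈ R}, a.factorization r * ind r := by
      rw [← ZMod.natCast_eq_zero_iff, lin_apply]
      push_cast
      rfl
    have e2 : lin R l (y l) (fun r => (a.factorization (r : ℕ) : ZMod l)) = 0 ↔
        (l : ℤ) ∣ ∑ r ∈ R, (a.factorization r : ℤ) * y l r := by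
      rw [← ZMod.intCast_zmod_eq_zero_iff_dvd, lin_apply,
        ← Finset.sum_coe_sort R (fun r => (a.factorization r : ℤ) * y l r)]
      push_cast
      rfl
    rw [← e1, ← e2]
    exact h1

theorem exists_index (p : ℕ) [hp : Fact p.Prime] (hpr : ∀ r ∈ R, ¬ p ∣ r) :
    ∃ (g : (ZMod p)ˣ) (ind : ℕ → ℕ), (∀ x : (ZMod p)ˣ, x ∈ Subgroup.zpowers g) ∧
      ∀ r ∈ R, ((g ^ ind r : (ZMod p)ˣ) : ZMod p) = (r : ZMod p) := by
  obtain ⟨g, hg⟩ := IsCyclic.exists_generator (α := (ZMod p)ˣ)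
  have h1 : ∀ r : ℕ, ∃ k : ℕ, r ∈ R → ((g ^ k : (ZMod p)ˣ) : ZMod p) = (r : ZMod p) := by
    intro r
    by_cases hr : r ∈ R
    · have h0 : (r : ZMod p) ≠ 0 := by
        intro h
        exact hpr r hr ((ZMod.natCast_eq_zero_iff r p).mp h)
      have := hg (Units.mk0 (r : ZMod p) h0)
      rw [← mem_powers_iff_mem_zpowers] at this
      obtain ⟨k, hk⟩ := this
      refine ⟨k, fun _ => ?_⟩
      have h2 : g ^ k = Units.mk0 (r : ZMod p) h0 := hk
      rw [h2]
      rfl
    · exact ⟨0, fun h => absurd h hr⟩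
  choose ind hind using h1
  exact ⟨g, ind, hg, hind⟩

end

/-- A finite family indexed by an arbitrary finite type can be indexed by natural numbers. -/
theorem reindex {α : Type} [Fintype α] (c : α → ℝ) (D B : α → ℕ) (P : ℕ → ℕ → Prop)
    (Q : ℕ → Prop) (F : ℕ → ℝ) (E : ℕ → ℕ → ℕ → ℝ) (h0 : 0 < ∑ a, c a)
    (h1 : ∀ a, P (D a) (B a)) (h2 : ∀ p, Q p → ∑ a, c a * E (D a) (B a) p = F p) :
    ∃ (ι : Finset ℕ) (c' : ℕ → ℝ) (D' B' : ℕ → ℕ), 0 < ∑ i ∈ ι, c' i ∧
      (∀ i ∈ ι, P (D' i) (B' i)) ∧ ∀ p, Q p → ∑ i ∈ ι, c' i * E (D' i) (B' i) p = F p := by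
  classical
  let f : α ↪ ℕ := (Fintype.equivFin α).toEmbedding.trans Fin.valEmbedding
  refine ⟨univ.map f, Function.extend f c 0, Function.extend f D 0, Function.extend f B 0,
    ?_, ?_, ?_⟩
  · rw [Finset.sum_map]
    simp only [f.injective.extend_apply]
    exact h0
  · intro i hi
    rw [Finset.mem_map] at hi
    obtain ⟨a, _, rfl⟩ := hi
    rw [f.injective.extend_apply, f.injective.extend_apply]
    exact h1 a
  · intro p hp
    rw [Finset.sum_map]
    simp only [f.injective.extend_apply]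
    exact h2 p hp

end Indic

open Indic

theorem indic : Indic := by
  intro Ls R y hLs hR hy
  classical
  have hF : ∀ l : {l // l ∈ Ls}, Fact (l : ℕ).Prime := fun l => ⟨(hLs l.1 l.2).1⟩
  have hφ : ∀ l : {l // l ∈ Ls}, lin R l (y l) ≠ 0 := fun l => lin_ne_zero R l (y l) (hy l.1 l.2)
  have main := reindex (α := Fam Ls R)
    (fun β => ∏ l : {l // l ∈ Ls},
      coef (l : ℕ) (lin R l (y l)) (β l) * (if β l = 0 then (l : ℝ) else 1))
    Dn Bn (fun D B => Odd D ∧ D ∣ ∏ l ∈ Ls, l ∧ 1 ≤ B ∧ NP D B)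
    (fun p => p.Prime ∧ (∀ l ∈ Ls, p % l = 1) ∧ (∀ r ∈ R, ¬ p ∣ r))
    (fun p => if Pat Ls R y p then 1 else 0) (fun D B p => (rc D B p : ℝ)) ?_ ?_ ?_
  · obtain ⟨ι, c, D, B, h0, h1, h2⟩ := main
    exact ⟨ι, c, D, B, h0, h1, fun p hp hpl hpr => h2 p ⟨hp, hpl, hpr⟩⟩
  · have e := Finset.prod_univ_sum (fun l : {l // l ∈ Ls} =>
      (univ : Finset ({r // r ∈ R} → ZMod (l : ℕ)))) (fun l b =>
        coef (l : ℕ) (lin R l (y l)) b * (if b = 0 then (l : ℝ) else 1))
    rw [Fintype.piFinset_univ] at e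
    rw [← e]
    apply Finset.prod_pos
    intro l _
    have h1 := sum_coef_pos (l : ℕ) (lin R l (y l)) (hφ l)
    have h2 : ∑ b : {r // r ∈ R} → ZMod (l : ℕ), coef (l : ℕ) (lin R l (y l)) b *
        (if b = 0 then (l : ℝ) else 1) = ∑ b : {r // r ∈ R} → ZMod (l : ℕ),
        coef (l : ℕ) (lin R l (y l)) b * @ite ℝ (b = 0) (Classical.propDecidable _) (l : ℝ) 1 :=
      Finset.sum_congr rfl (fun b _ => by congr)
    rw [h2]
    exact h1
  · intro β
    exact ⟨Dn_odd hLs β, Dn_dvd β, Bn_pos hR β, NP_Bn hLs hR β⟩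
  · rintro p ⟨hp, hpl, hpr⟩
    have : Fact p.Prime := ⟨hp⟩
    obtain ⟨g, ind, hg, hind⟩ := exists_index (R := R) p hpr
    have e := Finset.prod_univ_sum (fun l : {l // l ∈ Ls} =>
      (univ : Finset ({r // r ∈ R} → ZMod (l : ℕ)))) (fun l b =>
        coef (l : ℕ) (lin R l (y l)) b *
          (if lin R l (fun r => (ind r : ℤ)) b = 0 then (l : ℝ) else 0))
    rw [Fintype.piFinset_univ] at e
    have e2 : ∀ β : Fam Ls R, (∏ l : {l // l ∈ Ls},
        coef (l : ℕ) (lin R l (y l)) (β l) * (if β l = 0 then (l : ℝ) else 1)) *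
          (rc (Dn β) (Bn β) p : ℝ) = ∏ l : {l // l ∈ Ls}, coef (l : ℕ) (lin R l (y l)) (β l) *
          (if lin R l (fun r => (ind r : ℤ)) (β l) = 0 then (l : ℝ) else 0) := by
      intro β
      rw [rc_Bn hLs p g hg hpl ind hind, ← Finset.prod_mul_distrib]
      apply Finset.prod_congr rfl
      intro l _
      by_cases h : β l = 0
      · simp [h]
      · rw [if_neg h, if_neg h, mul_one]
        congr 1
        have h1 : (l : ℕ) ∣ ∑ r : {r // r ∈ R}, (β l r).val * ind r ↔
            lin R l (fun r => (ind r : ℤ)) (β l) = 0 := by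
          rw [lin_zero_iff, ← Int.natCast_dvd_natCast]
          push_cast
          rfl
        simp only [h1]
    calc ∑ β : Fam Ls R, (∏ l : {l // l ∈ Ls},
        coef (l : ℕ) (lin R l (y l)) (β l) * (if β l = 0 then (l : ℝ) else 1)) *
          (rc (Dn β) (Bn β) p : ℝ)
        = ∑ β : Fam Ls R, ∏ l : {l // l ∈ Ls}, coef (l : ℕ) (lin R l (y l)) (β l) *
          (if lin R l (fun r => (ind r : ℤ)) (β l) = 0 then (l : ℝ) else 0) :=
          Finset.sum_congr rfl (fun β _ => e2 β)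
      _ = _ := e.symm
      _ = ∏ l : {l // l ∈ Ls}, if (∀ b, lin R l (fun r => (ind r : ℤ)) b = 0 ↔
            lin R l (y l) b = 0) then (1 : ℝ) else 0 := by
          apply Finset.prod_congr rfl
          intro l _
          exact sum_coef (l : ℕ) (lin R l (y l)) (lin R l (fun r => (ind r : ℤ))) (hφ l)
      _ = if Pat Ls R y p then 1 else 0 := by
          rw [Fintype.prod_boole]
          simp only [pat_iff hLs hR y p g hg hpl ind hind]

end Pool.Agent.Helper80.NF
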